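import Mathlib
import Pool.Agent.helper768_cod.Exist

/-!
# The codegree density of the complete k-graph on k+1 vertices is not always one half

For every `k ≥ 4` the codegree density of the complete `k`-graph on `k + 1` vertices is at least
`9/16`, so the statement that it equals `1/2` for every `k ≥ 2` is false.
-/

namespace Pool.Agent.Results.MP_af2786_co.CodegreeDisproof

/-- A `k`-graph with vertex set `V`: a set of `k`-element subsets of `V`, the edges. -/
structure KGraph (k : ℕ) (V : Type) where
  /-- the edges -/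
  edges : Set (Finset V)
  /-- every edge has `k` elements -/
  card_of_mem : ∀ e ∈ edges, e.card = k

/-- The complete `k`-graph on the `m` vertices `0, …, m - 1`: all `k`-subsets are edges. -/
def completeK (k m : ℕ) : KGraph k (Fin m) where
  edges := {e | e.card = k}
  card_of_mem := fun _ h => h

/-- `H` contains a copy of `F`: an injection of vertex sets sends every edge of `F` to an edge
of `H`. -/
def HasCopy {k : ℕ} {V W : Type} (H : KGraph k V) (F : KGraph k W) : Prop :=
  ∃ f : W ↪ V, ∀ e ∈ F.edges, e.map f ∈ H.edges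

/-- The codegree of a set `T` of vertices: the number of vertices `v` outside `T` such that
`T` together with `v` is an edge. -/
noncomputable def codeg {k n : ℕ} (H : KGraph k (Fin n)) (T : Finset (Fin n)) : ℕ :=
  Set.ncard {v : Fin n | v ∉ T ∧ insert v T ∈ H.edges}

/-- The minimum codegree: the minimum of the codegree over all `(k-1)`-sets of vertices. -/
noncomputable def minCodeg {k n : ℕ} (H : KGraph k (Fin n)) : ℕ :=
  sInf {d : ℕ | ∃ T : Finset (Fin n), T.card = k - 1 ∧ codeg H T = d}

/-- The largest minimum codegree of a `k`-graph on `n` vertices without a copy of `F`. -/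
noncomputable def exCodeg {k : ℕ} {W : Type} (n : ℕ) (F : KGraph k W) : ℕ :=
  sSup {d : ℕ | ∃ H : KGraph k (Fin n), ¬ HasCopy H F ∧ minCodeg H = d}

/-- The codegree density of `F`: the upper limit of `exCodeg n F / n`. -/
noncomputable def codegDensity {k : ℕ} {W : Type} (F : KGraph k W) : ℝ :=
  Filter.limsup (fun n : ℕ => (exCodeg n F : ℝ) / n) Filter.atTop

theorem codeg_le {k n : ℕ} (H : KGraph k (Fin n)) (T : Finset (Fin n)) : codeg H T ≤ n := by
  unfold codeg
  calc Set.ncard {v : Fin n | v ∉ T ∧ insert v T ∈ H.edges}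
      ≤ Set.ncard (Set.univ : Set (Fin n)) := Set.ncard_le_ncard (Set.subset_univ _) Set.finite_univ
    _ = n := by rw [Set.ncard_univ, Nat.card_eq_fintype_card, Fintype.card_fin]

theorem minCodeg_le {k n : ℕ} (H : KGraph k (Fin n)) : minCodeg H ≤ n := by
  unfold minCodeg
  rcases Set.eq_empty_or_nonempty {d : ℕ | ∃ T : Finset (Fin n), T.card = k - 1 ∧ codeg H T = d}
    with h | h
  · rw [h, Nat.sInf_empty]; exact Nat.zero_le _
  · obtain ⟨T, -, hT⟩ := Nat.sInf_mem h
    rw [← hT]
    exact codeg_le H T

theorem exCodeg_le {k : ℕ} {W : Type} (n : ℕ) (F : KGraph k W) : exCodeg n F ≤ n := by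
  unfold exCodeg
  apply csSup_le'
  rintro d ⟨H, -, rfl⟩
  exact minCodeg_le H

theorem le_exCodeg {k n : ℕ} {W : Type} {F : KGraph k W} (H : KGraph k (Fin n))
    (hH : ¬ HasCopy H F) : minCodeg H ≤ exCodeg n F := by
  unfold exCodeg
  apply le_csSup
  · refine ⟨n, ?_⟩
    rintro d ⟨H, -, rfl⟩
    exact minCodeg_le H
  · exact ⟨H, hH, rfl⟩

/-- The `k`-graph given by a labelling. -/
def labelGraph {n : ℕ} (k : ℕ) (ω : Finset (Fin n) → Bool) : KGraph k (Fin n) where
  edges := {S | S.card = k ∧ Helper768Cod.IsEdge ω S}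
  card_of_mem := fun _ h => h.1

theorem labelGraph_free {n k : ℕ} (hk : 4 ≤ k) (ω : Finset (Fin n) → Bool) :
    ¬ HasCopy (labelGraph k ω) (completeK k (k + 1)) := by
  rintro ⟨f, hf⟩
  apply Helper768Cod.not_all_edges ω ((Finset.univ : Finset (Fin (k + 1))).map f)
  · rw [Finset.card_map, Finset.card_univ, Fintype.card_fin]; omega
  · intro v hv
    rw [Finset.mem_map] at hv
    obtain ⟨i, -, rfl⟩ := hv
    have h := hf (Finset.univ.erase i) (by
      change (Finset.univ.erase i).card = k
      rw [Finset.card_erase_of_mem (Finset.mem_univ _), Finset.card_univ, Fintype.card_fin]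
      omega)
    rw [Finset.map_erase] at h
    exact h.2

theorem labelGraph_minCodeg {n k : ℕ} (hk : 4 ≤ k) (hn : k - 1 ≤ n) (ω : Finset (Fin n) → Bool)
    (c : ℝ) (h : ∀ R : Finset (Fin n), R.card = k - 1 → c * n ≤ Helper768Cod.deg ω R) :
    c * n ≤ minCodeg (labelGraph k ω) := by
  have hne : {d : ℕ | ∃ T : Finset (Fin n), T.card = k - 1 ∧
      codeg (labelGraph k ω) T = d}.Nonempty := by
    obtain ⟨T, -, hT⟩ := Finset.exists_subset_card_eq (s := (Finset.univ : Finset (Fin n)))
      (n := k - 1) (by rw [Finset.card_univ, Fintype.card_fin]; exact hn)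
    exact ⟨_, T, hT, rfl⟩
  obtain ⟨T, hT, hd⟩ := Nat.sInf_mem hne
  have e : minCodeg (labelGraph k ω) = codeg (labelGraph k ω) T := hd.symm
  rw [e]
  refine le_trans (h T hT) ?_
  have : Helper768Cod.deg ω T = codeg (labelGraph k ω) T := by
    classical
    unfold Helper768Cod.deg codeg
    rw [← Set.ncard_coe_finset]
    congr 1
    ext v
    simp only [Finset.coe_filter, Finset.mem_univ, true_and, Set.mem_ofPred_eq]
    constructor
    · rintro ⟨h1, h2⟩
      refine ⟨h1, ?_, h2⟩
      rw [Finset.card_insert_of_notMem h1, hT]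
      omega
    · rintro ⟨h1, h2⟩
      exact ⟨h1, h2.2⟩
  rw [this]

theorem density_ge {k : ℕ} (hk : 4 ≤ k) : 9 / 16 ≤ codegDensity (completeK k (k + 1)) := by
  have key : ∀ c : ℝ, 0 < c → c < 9 / 16 → c ≤ codegDensity (completeK k (k + 1)) := by
    intro c hc0 hc
    have hev := Helper768Cod.eventually_labels (k - 1) (by omega) c hc0 hc
    unfold codegDensity
    apply Filter.le_limsup_of_frequently_le
    · apply Filter.Eventually.frequently
      filter_upwards [hev, Filter.eventually_ge_atTop (k - 1), Filter.eventually_ge_atTop 1]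
        with n hω hn hn1
      obtain ⟨ω, hω⟩ := hω
      have hn0 : (0 : ℝ) < n := by exact_mod_cast hn1
      rw [le_div_iff₀ hn0]
      refine le_trans (labelGraph_minCodeg hk hn ω c hω) ?_
      exact_mod_cast le_exCodeg (labelGraph k ω) (labelGraph_free hk ω)
    · refine ⟨1, ?_⟩
      rw [Filter.eventually_map]
      filter_upwards with n
      apply div_le_one_of_le₀ _ (Nat.cast_nonneg _)
      exact_mod_cast exCodeg_le n _
  apply le_of_forall_lt_imp_le_of_dense
  intro c hc
  rcases le_or_gt c 0 with h | h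
  · exact le_trans (le_trans h (by norm_num)) (key (1 / 4) (by norm_num) (by norm_num))
  · exact key c h hc

end Pool.Agent.Results.MP_af2786_co.CodegreeDisproof

/-- For every `k ≥ 4` the codegree density of the complete `k`-graph on `k + 1` vertices is at
least `9/16`; hence it is not true that this density is `1/2` for every `k ≥ 2`. -/
theorem Pool.Agent.Results.MP_af2786_co.CodegreeDisproof.result :
    (∀ k : ℕ, 4 ≤ k → 9 / 16 ≤ codegDensity (completeK k (k + 1))) ∧
      ¬ ∀ k : ℕ, 2 ≤ k → codegDensity (completeK k (k + 1)) = 1 / 2 := by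
  refine ⟨fun k hk => density_ge hk, ?_⟩
  intro h
  have h1 := h 4 (by norm_num)
  have h2 := density_ge (k := 4) le_rfl
  rw [h1] at h2
  norm_num at h2
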